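import Pool.Agent.L0h82.CH.Defs

/-! # Project CH, module DIAG: diagonalisation -/

set_option autoImplicit false

open Cardinal Set

namespace Pool.Agent.L0h82.CH

universe u

theorem s_DIAG : S_DIAG.{u} := by
  classical
  intro X Φ hat hX hΦ
  set κ : Cardinal.{u} := #X with hκ
  set W := κ.ord.ToType with hW
  have hWc : #W = κ := mk_ord_toType κ
  have hWt : ord #W = Ordinal.type (α := W) (· < ·) := by
    rw [hWc, Ordinal.type_toType]
  -- a cofinal set of minimal order type
  obtain ⟨I, hI, hIt⟩ := Ordinal.exists_ord_cof_eq (α := W)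
  have hcof : Order.cof W = κ.ord.cof := Ordinal.cof_toType _
  rw [hcof] at hIt
  have hIc : #I = κ.ord.cof := by
    have h := congrArg Ordinal.card hIt
    rwa [Ordinal.card_type, card_ord] at h
  have hIlt : ∀ i : I, #(Iio i) < κ.ord.cof := by
    intro i
    rw [← hIc]
    exact mk_Iio_lt i (by rw [hIc, hIt])
  -- the exhaustion
  obtain ⟨e⟩ : Nonempty (Φ ↪ W) := by
    rw [← Cardinal.le_def, hWc]
    exact hΦ
  have hΦi : ∀ i : W, #{φ : Φ | e φ ≤ i} < κ := by
    intro i
    have h1 : #{φ : Φ | e φ ≤ i} ≤ #(Iic i) :=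
      mk_le_of_injective (f := fun φ : {φ : Φ | e φ ≤ i} => (⟨e φ.1, φ.2⟩ : Iic i))
        fun φ ψ h => Subtype.ext (e.injective (congrArg Subtype.val h))
    have h2 : #(Iic i) < #W := mk_Iic_lt i hWt (by rw [hWc]; exact hX)
    rw [hWc] at h2
    exact h1.trans_lt h2
  -- the forbidden points
  set B : (i : I) → ((j : I) → j < i → X) → Set X := fun i r =>
    {y | ∃ (j : I) (hj : j < i), y = r j hj ∨ ∃ φ : Φ, e φ ≤ i.1 ∧ hat φ (r j hj) = some y} with hB
  have hBlt : ∀ i r, #(B i r) < κ := by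
    intro i r
    -- an enumeration of the forbidden points
    have h1 : B i r ⊆ range (fun q : Iio i × Option {φ : Φ | e φ ≤ i.1} =>
        match q.2 with
        | none => r q.1.1 q.1.2
        | some φ => (hat φ.1 (r q.1.1 q.1.2)).getD (r q.1.1 q.1.2)) := by
      rintro y ⟨j, hj, rfl | ⟨φ, hφ, hy⟩⟩
      · exact ⟨(⟨j, hj⟩, none), rfl⟩
      · refine ⟨(⟨j, hj⟩, some ⟨φ, hφ⟩), ?_⟩
        change (hat φ (r j hj)).getD (r j hj) = y
        rw [hy]
        rfl
    refine (mk_le_mk_of_subset h1).trans_lt (mk_range_le.trans_lt ?_)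
    simp only [mk_prod, lift_id, mk_option]
    refine mul_lt_of_lt hX ?_ ?_
    · exact (hIlt i).trans_le (Ordinal.cof_ord_le κ)
    · exact add_one_lt_of_lt hX (hΦi i.1)
  have hex : ∀ i r, ∃ x, x ∉ B i r := by
    intro i r
    by_contra hcon
    push Not at hcon
    have h1 : B i r = Set.univ := eq_univ_of_forall hcon
    have h2 := hBlt i r
    rw [h1, mk_univ] at h2
    exact absurd h2 (lt_irrefl _)
  choose F hF using hex
  have hwf : WellFounded ((· < ·) : I → I → Prop) := IsWellFounded.wf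
  set c : I → X := hwf.fix F with hc
  have hceq : ∀ i, c i ∉ B i (fun j _ => c j) := by
    intro i
    have h1 : c i = F i (fun j _ => c j) := hwf.fix_eq F i
    rw [h1]
    exact hF i _
  have hne : ∀ i j : I, j < i → c i ≠ c j := fun i j hj h => hceq i ⟨j, hj, Or.inl h⟩
  have hinj : Function.Injective c := by
    intro i j h
    rcases lt_trichotomy i j with h1 | h1 | h1
    · exact absurd h.symm (hne j i h1)
    · exact h1
    · exact absurd h (hne i j h1)
  refine ⟨range c, ?_, fun φ ψ => ?_⟩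
  · rw [mk_range_eq c hinj, hIc]
  · obtain ⟨i₀, hi₀, hi₀'⟩ := hI (max (e φ) (e ψ))
    have hsub : {x : X | x ∈ range c ∧ ∃ y ∈ range c, y ≠ x ∧ hat φ x = some y ∧
        hat ψ y = some x} ⊆ c '' (Iio (⟨i₀, hi₀⟩ : I)) := by
      rintro x ⟨⟨i, rfl⟩, _, ⟨j, rfl⟩, hji, h1, h2⟩
      refine ⟨i, ?_, rfl⟩
      have h3 : (i : W) < max (e φ) (e ψ) := by
        rcases lt_trichotomy i j with h4 | h4 | h4
        · -- `φ` comes after `j`
          have h5 : ¬ e φ ≤ j.1 := fun h5 => hceq j ⟨i, h4, Or.inr ⟨φ, h5, h1⟩⟩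
          rw [not_le] at h5
          exact (lt_trans (show (i : W) < j from h4) h5).trans_le (le_max_left _ _)
        · rw [h4] at hji
          exact absurd rfl hji
        · have h5 : ¬ e ψ ≤ i.1 := fun h5 => hceq i ⟨j, h4, Or.inr ⟨ψ, h5, h2⟩⟩
          rw [not_le] at h5
          exact h5.trans_le (le_max_right _ _)
      exact h3.trans_le hi₀'
    refine (mk_le_mk_of_subset hsub).trans_lt ?_
    exact mk_image_le.trans_lt (hIlt _)

end Pool.Agent.L0h82.CH
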