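import Mathlib

/-! # Project CH (MP_4eca4b_lc): cardinalities of strongly rigid chains -/

set_option autoImplicit false

open Cardinal Set

namespace Pool.Agent.L0h82.CH

universe u

/-- `C` is strongly rigid: every order-embedding of a subchain of `C` into `C` moves fewer than
`|C|` points. -/
def Rigid (C : Type u) [LinearOrder C] : Prop :=
  ℵ₀ ≤ #C ∧ ∀ (S : Set C) (f : C → C), StrictMonoOn f S → #{x : C | x ∈ S ∧ f x ≠ x} < #C

/-- `κ` is the cardinality of a strongly rigid chain. -/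
def InK (κ : Cardinal.{u}) : Prop :=
  ∃ (C : Type u) (_ : LinearOrder C), #C = κ ∧ Rigid C

/-- `(x, y)` is compatible with the strictly monotone relation `{g i}`. -/
def Rel {ι X : Type u} [LinearOrder X] (g : ι → X × X) (x y : X) : Prop :=
  ∀ i, ((g i).1 < x → (g i).2 < y) ∧ (x < (g i).1 → y < (g i).2) ∧ (x = (g i).1 → y = (g i).2)

/-- every strictly monotone partial map is determined by `|ι|` of its values -/
def S_EXT : Prop := ∀ (X ι : Type u) [LinearOrder X] (D : Set X), ℵ₀ ≤ #ι → #D ≤ #ι →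
  (∀ x y : X, x < y → ∃ d ∈ D, x ≤ d ∧ d ≤ y) →
  ∀ (S : Set X) (f : X → X), S.Nonempty → StrictMonoOn f S →
    ∃ g : ι → X × X, ∀ x ∈ S, ∀ y, Rel g x y ↔ y = f x

/-- diagonalisation of length `cof (2 ^ λ)` -/
def S_DIAG : Prop := ∀ (X Φ : Type u) (hat : Φ → X → Option X), ℵ₀ ≤ #X → #Φ ≤ #X →
  ∃ C : Set X, #C = (#X).ord.cof ∧ ∀ φ ψ : Φ,
    #{x : X | x ∈ C ∧ ∃ y ∈ C, y ≠ x ∧ hat φ x = some y ∧ hat ψ y = some x} < (#X).ord.cof

/-- the lexicographic power -/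
def S_LEX : Prop := ∀ l : Cardinal.{u}, ℵ₀ ≤ l → (∀ m < l, (2 : Cardinal.{u}) ^ m ≤ l) →
  ∃ (X : Type u) (_ : LinearOrder X) (D : Set X), #X = 2 ^ l ∧ #D ≤ l ∧
    ∀ x y : X, x < y → ∃ d ∈ D, x ≤ d ∧ d ≤ y

/-- a chain with more than `2 ^ m` points contains a copy of `m⁺` or its reverse -/
def S_HAU : Prop := ∀ (C : Type u) [LinearOrder C] (m : Cardinal.{u}), ℵ₀ ≤ m →
  (2 : Cardinal.{u}) ^ m < #C →
  ∃ g : (Order.succ m).ord.ToType → C, StrictMono g ∨ StrictAnti g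

/-- if a chain of singular cardinality `κ` contains a copy of `μ⁺` for cofinally many `μ < κ`,
then some strictly monotone map of a subchain moves `κ` points -/
def S_SUP : Prop := ∀ (C : Type u) [LinearOrder C] (κ : Cardinal.{u}), ℵ₀ ≤ κ → #C = κ →
  κ.ord.cof < κ → (∀ m < κ, Order.succ m < κ) →
  (∀ m < κ, ∃ m' < κ, m ≤ m' ∧ ∃ g : (Order.succ m').ord.ToType → C, StrictMono g) →
  ∃ (S : Set C) (f : C → C), StrictMonoOn f S ∧ #{x : C | x ∈ S ∧ f x ≠ x} = κ

/-- positive part of the theorem -/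
def S_POS : Prop := ∀ l : Cardinal.{u}, ℵ₀ ≤ l → (∀ m < l, (2 : Cardinal.{u}) ^ m ≤ l) →
  InK ((2 : Cardinal.{u}) ^ l).ord.cof

/-- negative part, singular strong limits -/
def S_NSING : Prop := ∀ κ : Cardinal.{u}, κ.IsStrongLimit → ¬ κ.IsRegular → ¬ InK κ

/-- negative part: `κ` such that every chain of cardinality `κ` contains a copy of `κ` or of its
reverse (for instance `ℵ₀` and the weakly compact cardinals) -/
def S_NWC : Prop := ∀ κ : Cardinal.{u}, ℵ₀ ≤ κ →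
  (∀ (C : Type u) [LinearOrder C], #C = κ → ∃ g : κ.ord.ToType → C, StrictMono g ∨ StrictAnti g) →
  ¬ InK κ

/-- `ℵ₀` -/
def S_OMEGA : Prop := ¬ InK (ℵ₀ : Cardinal.{u})

end Pool.Agent.L0h82.CH
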