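import Pool.Agent.L0h82.CH.Defs

/-! # Project CH, module EXT: strictly monotone partial maps are determined by few values -/

set_option autoImplicit false

open Cardinal Set

namespace Pool.Agent.L0h82.CH

universe u

/-- an infinite set of a chain contains four points in increasing order -/
theorem exists_four {X : Type u} [LinearOrder X] {T : Set X} (hT : T.Infinite) :
    ∃ x : Fin 4 → X, StrictMono x ∧ ∀ i, x i ∈ T := by
  obtain ⟨t, ht, hc⟩ := hT.exists_subset_card_eq 4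
  exact ⟨t.orderEmbOfFin hc, (t.orderEmbOfFin hc).strictMono,
    fun i => ht (t.orderEmbOfFin_mem hc i)⟩

theorem s_EXT : S_EXT.{u} := by
  classical
  intro X ι _ D hι hD hDd S f hS hf
  obtain ⟨s₀, hs₀⟩ := hS
  -- the auxiliary set
  set e₀ : D × D → X := fun p =>
    if h : (S ∩ Icc (p.1 : X) (p.2 : X)).Nonempty then h.some else s₀ with he₀
  set E : Set X := insert s₀ (range e₀) with hE
  have hES : ∀ e ∈ E, e ∈ S := by
    rintro e (rfl | ⟨p, rfl⟩)
    · exact hs₀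
    · simp only [he₀]
      split_ifs with h
      · exact h.some_mem.1
      · exact hs₀
  have hE3 : ∀ x₁ x₂ x₃ : X, x₁ < x₂ → x₂ < x₃ → x₂ ∈ S → ∃ e ∈ E, x₁ ≤ e ∧ e ≤ x₃ := by
    intro x₁ x₂ x₃ h12 h23 h2
    obtain ⟨d, hd, hd1, hd2⟩ := hDd x₁ x₂ h12
    obtain ⟨d', hd', hd1', hd2'⟩ := hDd x₂ x₃ h23
    have hne : (S ∩ Icc d d').Nonempty := ⟨x₂, h2, hd2, hd1'⟩
    refine ⟨e₀ (⟨d, hd⟩, ⟨d', hd'⟩), Or.inr ⟨_, rfl⟩, ?_⟩
    have h4 : e₀ (⟨d, hd⟩, ⟨d', hd'⟩) = hne.some := dif_pos hne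
    rw [h4]
    exact ⟨hd1.trans hne.some_mem.2.1, hne.some_mem.2.2.trans hd2'⟩
  have hEc : #E ≤ #ι := by
    refine (mk_insert_le).trans ?_
    have h1 : #(range e₀) ≤ #ι := by
      refine mk_range_le.trans ?_
      simp only [mk_prod, lift_id]
      exact (mul_le_mul' hD hD).trans (mul_eq_self hι).le
    exact add_le_of_le hι h1 (one_le_aleph0.trans hι)
  -- the possible values
  set J : X → X → Prop := fun x y => ∀ e ∈ E, (e < x → f e < y) ∧ (x < e → y < f e) with hJ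
  set Bad : Set X := {x | x ∈ S ∧ ∃ y, J x y ∧ y ≠ f x} with hBad
  have hBc : #Bad ≤ #ι := by
    have hb : ∀ x : Bad, ∃ p : D × Bool, ∃ y, J x y ∧ y ≠ f x ∧
        ((p.2 = true ∧ f x ≤ p.1 ∧ (p.1 : X) ≤ y) ∨ (p.2 = false ∧ y ≤ p.1 ∧ (p.1 : X) ≤ f x)) := by
      rintro ⟨x, hx, y, hy, hne⟩
      rcases lt_or_gt_of_ne hne with h | h
      · obtain ⟨d, hd, h1, h2⟩ := hDd _ _ h
        exact ⟨(⟨d, hd⟩, false), y, hy, hne, Or.inr ⟨rfl, h1, h2⟩⟩
      · obtain ⟨d, hd, h1, h2⟩ := hDd _ _ h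
        exact ⟨(⟨d, hd⟩, true), y, hy, hne, Or.inl ⟨rfl, h1, h2⟩⟩
    choose p hp using hb
    have hfib : ∀ q : D × Bool, #(p ⁻¹' {q}) ≤ ℵ₀ := by
      intro q
      by_contra hcon
      have hinf : (p ⁻¹' {q}).Infinite := by
        intro hfin
        exact hcon hfin.lt_aleph0.le
      obtain ⟨x, hx, hxq⟩ := exists_four hinf
      have hxm : ∀ i j : Fin 4, i < j → (x i : X) < x j := fun i j h => hx h
      obtain ⟨y0, hy0, -, hy0'⟩ := hp (x 0)
      obtain ⟨y1, hy1, -, hy1'⟩ := hp (x 3)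
      have hq0 : p (x 0) = q := hxq 0
      have hq3 : p (x 3) = q := hxq 3
      rw [hq0] at hy0'
      rw [hq3] at hy1'
      rcases hy0' with ⟨h1, h2, h3⟩ | ⟨h1, h2, h3⟩
      · rcases hy1' with ⟨h1', h2', h3'⟩ | ⟨h1', -, -⟩
        · -- `x 1 ≤ e ≤ x 3`
          obtain ⟨e, he, he1, he2⟩ := hE3 (x 1) (x 2) (x 3) (hxm _ _ (by decide))
            (hxm _ _ (by decide)) (x 2).2.1
          have h4 : (x 0 : X) < e := (hxm 0 1 (by decide)).trans_le he1
          have h5 := (hy0 e he).2 h4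
          have h6 : f e ≤ f (x 3) := hf.monotoneOn (hES e he) (x 3).2.1 he2
          exact absurd (h3.trans_lt h5) (not_lt.2 (h6.trans h2'))
        · rw [h1] at h1'
          exact absurd h1' (by decide)
      · rcases hy1' with ⟨h1', -, -⟩ | ⟨h1', h2', h3'⟩
        · rw [h1] at h1'
          exact absurd h1' (by decide)
        · obtain ⟨e, he, he1, he2⟩ := hE3 (x 0) (x 1) (x 2) (hxm _ _ (by decide))
            (hxm _ _ (by decide)) (x 1).2.1
          have h4 : e < (x 3 : X) := he2.trans_lt (hxm 2 3 (by decide))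
          have h5 := (hy1 e he).1 h4
          have h6 : f (x 0) ≤ f e := hf.monotoneOn (x 0).2.1 (hES e he) he1
          exact absurd (h5.trans_le h2') (not_lt.2 (h3.trans h6))
    refine (mk_le_mk_mul_of_mk_preimage_le p hfib).trans ?_
    simp only [mk_prod, lift_uzero, mk_bool, lift_two]
    have h2 : (2 : Cardinal.{u}) ≤ #ι := (ofNat_lt_aleph0 (n := 2)).le.trans hι
    refine (mul_le_mul' (mul_le_mul' hD h2) hι).trans ?_
    rw [mul_eq_self hι, mul_eq_self hι]
  -- the enumeration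
  have hne : Nonempty (E ∪ Bad : Set X) := ⟨⟨s₀, Or.inl (Or.inl rfl)⟩⟩
  have hcard : #(E ∪ Bad : Set X) ≤ #ι := (mk_union_le _ _).trans (add_le_of_le hι hEc hBc)
  obtain ⟨φ⟩ := (Cardinal.le_def _ _).1 hcard
  have hsurj := Function.invFun_surjective φ.injective
  set s : ι → (E ∪ Bad : Set X) := Function.invFun φ with hs
  refine ⟨fun i => ((s i : X), f (s i)), fun x hx y => ?_⟩
  have hsS : ∀ i, (s i : X) ∈ S := fun i => by
    rcases (s i).2 with h | h
    · exact hES _ h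
    · exact h.1
  constructor
  · intro h
    by_cases hx' : x ∈ E ∪ Bad
    · obtain ⟨i, hi⟩ := hsurj ⟨x, hx'⟩
      have h1 := (h i).2.2
      have h2 : ((s i : X)) = x := by rw [hi]
      simp only at h1
      rw [h2] at h1
      exact h1 rfl
    · by_contra hy
      apply hx'
      refine Or.inr ⟨hx, y, ?_, hy⟩
      intro e he
      obtain ⟨i, hi⟩ := hsurj ⟨e, Or.inl he⟩
      have h2 : ((s i : X)) = e := by rw [hi]
      have h1 := h i
      simp only at h1
      rw [h2] at h1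
      exact ⟨h1.1, h1.2.1⟩
  · rintro rfl i
    refine ⟨fun h => hf (hsS i) hx h, fun h => hf hx (hsS i) h, fun h => ?_⟩
    simp only at h ⊢
    rw [h]

end Pool.Agent.L0h82.CH
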