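import Pool.Agent.L0h82.CH.Defs

/-! # Project CH, module HAU: large chains contain long monotone sequences -/

set_option autoImplicit false

open Cardinal Set

namespace Pool.Agent.L0h82.CH

universe u

section hau

variable {C : Type u} [LinearOrder C] (r : C → C → Prop) [IsWellOrder C r]

/-- the successive approximations of `x` -/
def HT (x : C) : Set C :=
  {c | (c = x ∨ r c x) ∧ ∀ c', r c' c → ¬ ((c ≤ c' ∧ c' ≤ x) ∨ (x ≤ c' ∧ c' ≤ c))}

/-- the approximations before `c` -/
def HP (x c : C) : Set C := {c' | c' ∈ HT r x ∧ r c' c}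

/-- the order type of a set -/
noncomputable def htype (A : Set C) : Ordinal.{u} := Ordinal.type (Subrel r (· ∈ A))

/-- the position of `c` -/
noncomputable def hpos (x c : C) : Ordinal.{u} := htype r (HP r x c)

theorem hpos_lt {x c c' : C} (hc : c ∈ HT r x) (h : r c c') : hpos r x c < hpos r x c' := by
  rw [hpos, hpos, htype, htype, Ordinal.type_lt_iff]
  refine ⟨⟨⟨⟨fun p => ⟨p.1, p.2.1, _root_.trans p.2.2 h⟩, fun p q hpq => ?_⟩, Iff.rfl⟩,
    ⟨c, hc, h⟩, ?_⟩⟩
  · have h1 := congrArg (fun z : {z // z ∈ HP r x c'} => z.1) hpq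
    exact Subtype.ext h1
  · rintro ⟨b, hb1, hb2⟩
    constructor
    · rintro ⟨p, hp⟩
      have h1 : p.1 = b := congrArg Subtype.val hp
      change r b c
      rw [← h1]
      exact p.2.2
    · intro h1
      exact ⟨⟨b, hb1, h1⟩, rfl⟩

theorem hpos_inj {x c c' : C} (hc : c ∈ HT r x) (hc' : c' ∈ HT r x)
    (h : hpos r x c = hpos r x c') : c = c' := by
  rcases trichotomous_of r c c' with h1 | h1 | h1
  · exact absurd h (hpos_lt r hc h1).ne
  · exact h1
  · exact absurd h (hpos_lt r hc' h1).ne'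

theorem HT_step {x y c c' : C} (hxy : x < y) (hc1 : x ≤ c) (hc2 : c ≤ y)
    (hmin : ∀ z, r z c → ¬ (x ≤ z ∧ z ≤ y)) (hcx : c = x ∨ r c x) (hcy : c = y ∨ r c y)
    (h : r c' c) : c' ∈ HT r x ↔ c' ∈ HT r y := by
  have hx : c' = x ∨ r c' x := by
    rcases hcx with rfl | h1
    · exact Or.inr h
    · exact Or.inr (_root_.trans h h1)
  have hy : c' = y ∨ r c' y := by
    rcases hcy with rfl | h1
    · exact Or.inr h
    · exact Or.inr (_root_.trans h h1)
  have h2 := hmin c' h
  have hout : c' < x ∨ y < c' := by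
    by_contra hcon
    push Not at hcon
    exact h2 hcon
  simp only [HT, mem_ofPred_eq, hx, hy, true_and]
  refine forall_congr' fun z => ?_
  refine imp_congr_right fun hz => ?_
  have h3 := hmin z (_root_.trans hz h)
  have hzo : z < x ∨ y < z := by
    by_contra hcon
    push Not at hcon
    exact h3 hcon
  rw [not_iff_not]
  rcases hout with h4 | h4
  · constructor
    · rintro (⟨h5, h6⟩ | ⟨h5, h6⟩)
      · exact Or.inl ⟨h5, h6.trans hxy.le⟩
      · exact absurd (h5.trans h6) (not_le.2 h4)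
    · rintro (⟨h5, h6⟩ | ⟨h5, h6⟩)
      · rcases hzo with h7 | h7
        · exact Or.inl ⟨h5, h7.le⟩
        · exact absurd h6 (not_le.2 h7)
      · exact absurd ((hxy.le.trans h5).trans h6) (not_le.2 h4)
  · constructor
    · rintro (⟨h5, h6⟩ | ⟨h5, h6⟩)
      · exact absurd (h5.trans (h6.trans hxy.le)) (not_le.2 h4)
      · rcases hzo with h7 | h7
        · exact absurd h5 (not_le.2 h7)
        · exact Or.inr ⟨h7.le, h6⟩
    · rintro (⟨h5, h6⟩ | ⟨h5, h6⟩)
      · exact absurd (h5.trans h6) (not_le.2 h4)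
      · exact Or.inr ⟨hxy.le.trans h5, h6⟩

omit [LinearOrder C] in
/-- large subsets contain long sequences -/
theorem exists_seq (m : Cardinal.{u}) (A : Set C) (hA : m < #A) :
    ∃ φ : (Order.succ m).ord.ToType → C, (∀ a, φ a ∈ A) ∧ ∀ a b, a < b → r (φ a) (φ b) := by
  have h1 : (Order.succ m).ord ≤ Ordinal.type (Subrel r (· ∈ A)) :=
    (ord_le_ord.2 (Order.succ_le_of_lt hA)).trans (ord_le_type _)
  rw [← Ordinal.type_toType (Order.succ m).ord, Ordinal.type_le_iff'] at h1
  obtain ⟨φ⟩ := h1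
  exact ⟨fun a => (φ a).1, fun a => (φ a).2, fun a b h => φ.map_rel_iff.2 h⟩

end hau

theorem s_HAU : S_HAU.{u} := by
  classical
  intro C _ m hm hC
  by_contra hcon
  push Not at hcon
  set r : C → C → Prop := WellOrderingRel with hr
  -- the approximations are few
  have hT : ∀ x, #(HT r x) ≤ m := by
    intro x
    have hL : #{c | c ∈ HT r x ∧ c < x} ≤ m := by
      by_contra h
      rw [not_le] at h
      obtain ⟨φ, hφ1, hφ2⟩ := exists_seq r m _ h
      refine (hcon φ).1 fun a b hab => ?_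
      have h1 := (hφ1 b).1.2 (φ a) (hφ2 a b hab)
      by_contra h2
      rw [not_lt] at h2
      exact h1 (Or.inl ⟨h2, (hφ1 a).2.le⟩)
    have hR : #{c | c ∈ HT r x ∧ x < c} ≤ m := by
      by_contra h
      rw [not_le] at h
      obtain ⟨φ, hφ1, hφ2⟩ := exists_seq r m _ h
      refine (hcon φ).2 fun a b hab => ?_
      have h1 := (hφ1 b).1.2 (φ a) (hφ2 a b hab)
      by_contra h2
      rw [not_lt] at h2
      exact h1 (Or.inr ⟨(hφ1 a).2.le, h2⟩)
    have hsub : HT r x ⊆ insert x ({c | c ∈ HT r x ∧ c < x} ∪ {c | c ∈ HT r x ∧ x < c}) := by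
      intro c hc
      rcases lt_trichotomy c x with h | h | h
      · exact Or.inr (Or.inl ⟨hc, h⟩)
      · exact Or.inl h
      · exact Or.inr (Or.inr ⟨hc, h⟩)
    refine (mk_le_mk_of_subset hsub).trans (mk_insert_le.trans ?_)
    exact add_le_of_le hm ((mk_union_le _ _).trans (add_le_of_le hm hL hR))
      (one_le_aleph0.trans hm)
  set W := (Order.succ m).ord.ToType with hW
  have hpos_lt' : ∀ x c, hpos r x c < (Order.succ m).ord := by
    intro x c
    rw [lt_ord, hpos, htype, Ordinal.card_type, Order.lt_succ_iff]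
    exact (mk_le_mk_of_subset (fun c' hc' => hc'.1 : HP r x c ⊆ HT r x)).trans (hT x)
  have hw : ∀ x c, ∃ w : W, Ordinal.typein (α := W) (· < ·) w = hpos r x c := by
    intro x c
    exact Ordinal.typein_surj (α := W) (· < ·) (by rw [Ordinal.type_toType]; exact hpos_lt' x c)
  choose w hw using hw
  have hwinj : ∀ {x y c d}, w x c = w y d → hpos r x c = hpos r y d := by
    intro x y c d h
    rw [← hw, ← hw, h]
  have hwinj' : ∀ {x y c d}, hpos r x c = hpos r y d → w x c = w y d := by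
    intro x y c d h
    apply Ordinal.typein_injective (α := W) (· < ·)
    rw [hw, hw, h]
  set K : C → Set (W × Bool) := fun x =>
    (fun c => (w x c, decide (x < c))) '' {c | c ∈ HT r x ∧ c ≠ x} with hK
  have hKm : ∀ x, #(K x) ≤ m := fun x =>
    mk_image_le.trans ((mk_le_mk_of_subset fun c hc => hc.1).trans (hT x))
  -- two points with the same code
  have key : ∀ x y, x < y → K x ≠ K y := by
    intro x y hxy hKK
    have hwf : WellFounded r := IsWellFounded.wf
    have hne : (Icc x y).Nonempty := ⟨x, le_rfl, hxy.le⟩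
    set c := hwf.min (Icc x y) hne with hc
    have hcm : c ∈ Icc x y := hwf.min_mem _ hne
    have hmin : ∀ z, r z c → ¬ (x ≤ z ∧ z ≤ y) := fun z hz hz' => hwf.not_lt_min _ hz' hz
    have hcx : c = x ∨ r c x := by
      rcases trichotomous_of r c x with h | h | h
      · exact Or.inr h
      · exact Or.inl h
      · exact absurd ⟨le_rfl, hxy.le⟩ (hmin x h)
    have hcy : c = y ∨ r c y := by
      rcases trichotomous_of r c y with h | h | h
      · exact Or.inr h
      · exact Or.inl h
      · exact absurd ⟨hxy.le, le_rfl⟩ (hmin y h)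
    have hcTx : c ∈ HT r x := by
      refine ⟨hcx, fun z hz => ?_⟩
      rintro (⟨h1, h2⟩ | ⟨h1, h2⟩)
      · exact hmin z hz ⟨hcm.1.trans h1, h2.trans hxy.le⟩
      · exact hmin z hz ⟨h1, h2.trans hcm.2⟩
    have hcTy : c ∈ HT r y := by
      refine ⟨hcy, fun z hz => ?_⟩
      rintro (⟨h1, h2⟩ | ⟨h1, h2⟩)
      · exact hmin z hz ⟨hcm.1.trans h1, h2⟩
      · exact hmin z hz ⟨hxy.le.trans h1, h2.trans hcm.2⟩
    have hP : HP r x c = HP r y c := by
      ext z
      constructor
      · rintro ⟨h1, h2⟩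
        exact ⟨(HT_step r hxy hcm.1 hcm.2 hmin hcx hcy h2).1 h1, h2⟩
      · rintro ⟨h1, h2⟩
        exact ⟨(HT_step r hxy hcm.1 hcm.2 hmin hcx hcy h2).2 h1, h2⟩
    have hρ : hpos r x c = hpos r y c := by
      unfold hpos
      rw [hP]
    rcases eq_or_ne c x with h0 | h0
    · have hcy' : c ≠ y := by
        rw [h0]
        exact hxy.ne
      have h1 : (w y c, decide (y < c)) ∈ K y := ⟨c, ⟨hcTy, hcy'⟩, rfl⟩
      rw [← hKK] at h1
      obtain ⟨c₁, ⟨h2, h3⟩, h4⟩ := h1
      have h5 : w x c₁ = w y c := congrArg Prod.fst h4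
      have h6 := hpos_inj r h2 hcTx ((hwinj h5).trans hρ.symm)
      exact h3 (h6.trans h0)
    · have hxc : x < c := lt_of_le_of_ne hcm.1 (Ne.symm h0)
      have h1 : (w x c, decide (x < c)) ∈ K x := ⟨c, ⟨hcTx, h0⟩, rfl⟩
      rw [hKK] at h1
      obtain ⟨c₁, ⟨h2, h3⟩, h4⟩ := h1
      have h5 : w y c₁ = w x c := congrArg Prod.fst h4
      have h6 : decide (y < c₁) = decide (x < c) := congrArg Prod.snd h4
      have h7 := hpos_inj r h2 hcTy ((hwinj h5).trans hρ)
      rw [h7, decide_eq_true hxc, decide_eq_true_eq] at h6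
      exact absurd h6 (not_lt.2 hcm.2)
  have hKinj : Function.Injective (fun x => (⟨K x, hKm x⟩ : {t : Set (W × Bool) // #t ≤ m})) := by
    intro x y h
    have h1 : K x = K y := congrArg Subtype.val h
    rcases lt_trichotomy x y with h2 | h2 | h2
    · exact absurd h1 (key x y h2)
    · exact h2
    · exact absurd h1.symm (key y x h2)
  have h1 : #C ≤ max #(W × Bool) ℵ₀ ^ m := (mk_le_of_injective hKinj).trans (mk_bounded_set_le _ _)
  have h2 : max #(W × Bool) ℵ₀ ≤ 2 ^ m := by
    have h3 : Order.succ m ≤ 2 ^ m := Order.succ_le_of_lt (cantor m)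
    have h4 : ℵ₀ ≤ (2 : Cardinal.{u}) ^ m := hm.trans (cantor m).le
    refine max_le ?_ h4
    simp only [mk_prod, lift_uzero, mk_bool, lift_two]
    rw [hW, mk_ord_toType]
    refine (mul_le_mul' h3 ((ofNat_lt_aleph0 (n := 2)).le.trans h4)).trans ?_
    rw [mul_eq_self h4]
  have h3 : #C ≤ 2 ^ m := by
    refine h1.trans ((power_le_power_right h2).trans ?_)
    rw [← power_mul, mul_eq_self hm]
  exact absurd hC (not_lt.2 h3)

end Pool.Agent.L0h82.CH
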