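import Pool.Agent.L0h82.CH.Defs

/-! # Project CH, module LEX: the lexicographic power -/

set_option autoImplicit false

open Cardinal Set

namespace Pool.Agent.L0h82.CH

universe u

theorem s_LEX : S_LEX.{u} := by
  classical
  intro l hl hpow
  set A := l.ord.ToType with hA
  have hAc : #A = l := mk_ord_toType l
  have hAt : ord #A = Ordinal.type (α := A) (· < ·) := by rw [hAc, Ordinal.type_toType]
  set D₀ : Set (A → Bool) := {g | ∃ a, ∀ b, a < b → g b = false} with hD₀
  have hDa : ∀ a : A, #{g : A → Bool | ∀ b, a < b → g b = false} ≤ l := by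
    intro a
    have h1 : #{g : A → Bool | ∀ b, a < b → g b = false} ≤ #(Iic a → Bool) := by
      refine mk_le_of_injective (f := fun g : {g : A → Bool | ∀ b, a < b → g b = false} =>
        fun i : Iic a => g.1 i.1) fun g g' h => ?_
      apply Subtype.ext
      funext b
      rcases le_or_gt b a with hb | hb
      · exact congrFun h ⟨b, hb⟩
      · rw [g.2 b hb, g'.2 b hb]
    have h2 : #(Iic a) < #A := mk_Iic_lt a hAt (by rw [hAc]; exact hl)
    rw [hAc] at h2
    have h3 : #(Iic a → Bool) = 2 ^ #(Iic a) := by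
      simp
    rw [h3] at h1
    exact h1.trans (hpow _ h2)
  have hD₀c : #D₀ ≤ l := by
    have h1 : D₀ = ⋃ a : A, {g : A → Bool | ∀ b, a < b → g b = false} := by
      ext g
      simp [hD₀]
    rw [h1]
    refine (mk_iUnion_le_sum_mk).trans ?_
    refine (sum_le_sum _ _ hDa).trans ?_
    rw [sum_const, lift_id, lift_id, hAc, mul_eq_self hl]
  refine ⟨Lex (A → Bool), inferInstance, ofLex ⁻¹' D₀, ?_, ?_, ?_⟩
  · have h1 : #(Lex (A → Bool)) = #(A → Bool) := rfl
    rw [h1]
    simp [hAc]
  · have h1 : #(ofLex ⁻¹' D₀ : Set (Lex (A → Bool))) = #D₀ := rfl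
    rw [h1]
    exact hD₀c
  · rintro x y ⟨a, ha, hxy⟩
    refine ⟨toLex fun b => if b ≤ a then y b else false, ⟨a, fun b hb => if_neg (not_le.2 hb)⟩,
      le_of_lt ⟨a, fun b hb => ?_, ?_⟩, le_of_not_gt ?_⟩
    · change x b = if b ≤ a then y b else false
      rw [if_pos hb.le]
      exact ha b hb
    · change x a < if a ≤ a then y a else false
      rw [if_pos le_rfl]
      exact hxy
    · rintro ⟨b, -, hb⟩
      change y b < if b ≤ a then y b else false at hb
      split_ifs at hb with h
      · exact absurd hb (lt_irrefl _)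
      · exact absurd hb (by cases y b <;> decide)

end Pool.Agent.L0h82.CH
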